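import Mathlib

/-! Project NL (MP_7e34bc_co, Q2, large k): N(n,k) is the balanced value for all n, k with 3n <= 4k.
Statements of the rows, each with a complete proof in its docstring. -/

namespace Pool.Agent.NL

open Finset

/-- the sum of the four largest binomial coefficients of row `m` -/
def top4 (m : ℕ) : ℕ := m.choose (m / 2 + 2) + m.choose (m / 2 + 1) + m.choose (m / 2) +
  (if m / 2 = 0 then 0 else m.choose (m / 2 - 1))

/-- the balanced value: zero subsums of size between 1 and `k` of `n/2` ones and `n - n/2` minus ones -/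
def BV (n k : ℕ) : ℕ := ∑ i ∈ Icc 1 (k / 2), (n / 2).choose i * (n - n / 2).choose i

/-- the rest of the Vandermonde sum -/
def tl (n k : ℕ) : ℕ := ∑ i ∈ Ico (k / 2 + 1) (n / 2 + 1), (n / 2).choose i * (n - n / 2).choose i

/-- FSA. LYM for four sum levels. Proof: for one value `c` the sets of `F` with sum `c` form an antichain
(`y > 0`, a proper subset has a smaller sum), so Mathlib's LYM inequality
(`Finset.sum_card_slice_div_choose_le_one` or `lubell_yamamoto_meshalkin...`, file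
Mathlib/Combinatorics/SetFamily/LYM) gives `sum_s |F_c # s| / C(m,s) <= 1`; add over the four values
(`|F # s| <= sum over the four values`). -/
def FSA_stmt : Prop := ∀ (α : Type) [Fintype α] [DecidableEq α] (y : α → ℝ), (∀ i, 0 < y i) →
  ∀ (c : Fin 4 → ℝ) (F : Finset (Finset α)), (∀ A ∈ F, ∃ r, ∑ i ∈ A, y i = c r) →
  ∑ s ∈ range (Fintype.card α + 1),
    (((F.filter (fun A => A.card = s)).card : ℚ) / ((Fintype.card α).choose s : ℚ)) ≤ 4

/-- FSB. The linear program. `f s <= C_s`, `sum f s / C_s <= 4` imply `sum f s <= top4 m`.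
Proof: `m <= 2`: `f s <= C_s` and `top4 m = 2^m`. `m >= 3`: `h = m/2`, the four levels
`h-1, h, h+1, h+2` lie in `[0,m]`; put `K = C(m,h+2)`. All four central coefficients are `>= K`
and all others are `<= K` (unimodality). For every `s <= m`:
`f s <= K f s / C_s + [s central] (C_s - K)`: for `s` not central `C_s <= K`; for `s` central
`f s (1 - K/C_s) <= C_s - K`. Add: `sum f s <= 4 K + sum_central (C_s - K) = top4 m`. -/
def FSB_stmt : Prop := ∀ (m : ℕ) (f : ℕ → ℕ), (∀ s, s ≤ m → f s ≤ m.choose s) →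
  ∑ s ∈ range (m + 1), ((f s : ℚ) / (m.choose s : ℚ)) ≤ 4 → ∑ s ∈ range (m + 1), f s ≤ top4 m

/-- UVS. Two different positive weights. Proof: `α = {i // i ≠ u ∧ i ≠ v}` has `n - 2` elements. The map
`A |-> A.subtype` (that is `A` without `u, v`) is injective on `F`: the sum of `A` outside `u, v` is
`c - (0 or y u or y v or y u + y v)` and these four numbers are different, so the trace of `A` on `{u, v}` is
determined by the image. The images have sums in `{c, c - y u, c - y v, c - y u - y v}`. Apply FSA to the image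
and FSB with `f s` = number of images with `s` elements (at most `C(n-2,s)`). -/
def UVS_stmt : Prop := ∀ (n : ℕ) (y : Fin n → ℝ), (∀ i, 0 < y i) → ∀ u v : Fin n, y u < y v →
  ∀ (c : ℝ) (F : Finset (Finset (Fin n))), (∀ A ∈ F, ∑ i ∈ A, y i = c) → F.card ≤ top4 (n - 2)

/-- FLP. Flip the negative part. Proof: `N = {i | x i < 0}`, `y i = |x i|`, `c = sum_N |x i|`; the map
`A |-> symmDiff A N` is injective and `sum_{symmDiff A N} |x| = sum_A x + sum_N |x| = c`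
(`sum_{A \ N} |x| = sum_{A \ N} x`, `sum_{N \ A} |x| = sum_N |x| + sum_{A cap N} x`). Apply UVS to the
pair `u, v` with `|x u| < |x v|` (or exchange). -/
def FLP_stmt : Prop := ∀ (n : ℕ) (x : Fin n → ℝ), (∀ i, x i ≠ 0) → ∀ u v : Fin n, |x u| ≠ |x v| →
  ∀ F : Finset (Finset (Fin n)), (∀ A ∈ F, ∑ i ∈ A, x i = 0) → F.card ≤ top4 (n - 2)

/-- UN2. Proof: for `a + 1 <= b - 1 + 1`, that is `a < b`: `C(a,i) C(b,i) <= C(a+1,i) C(b-1,i)`, since
`C(a+1,i) (a+1-i) = C(a,i) (a+1)`, `C(b,i) (b-i) = C(b-1,i) b` and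
`(a+1)(b-i) >= b (a+1-i)` iff `i b >= i (a+1)`. Induction on `b - a` down to `b - a <= 1`; symmetric in
`a, b`. -/
def UN2_stmt : Prop := ∀ a b i : ℕ, a.choose i * b.choose i ≤
  ((a + b) / 2).choose i * (a + b - (a + b) / 2).choose i

/-- EQM. All `|x i|` equal. Proof: `P = {x > 0}`, `a = |P|`, `b = n - a`. `sum_A x = 0` means
`|A cap P| = |A \ P| = i`, `|A| = 2 i`, `1 <= i <= k/2`. So `F` is contained in the union over
`i` in `Icc 1 (k/2)` of the families `{A : |A cap P| = i = |A \ P|}` with `C(a,i) C(b,i)` members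
(`A |-> (A cap P, A \ P)` injects into `powersetCard i P ×ˢ powersetCard i Pᶜ`), and UN2. -/
def EQM_stmt : Prop := ∀ (n k : ℕ) (x : Fin n → ℝ), (∀ i, x i ≠ 0) → (∀ u v, |x u| = |x v|) →
  ∀ F : Finset (Finset (Fin n)), (∀ A ∈ F, A.Nonempty ∧ A.card ≤ k) →
  (∀ A ∈ F, ∑ i ∈ A, x i = 0) → F.card ≤ BV n k

/-- VA2. Vandermonde: `C(n, n/2) = sum_{i <= n/2} C(n/2, n/2 - i) C(n - n/2, i)`
(`Nat.add_choose_eq`, `Finset.Nat.sum_antidiagonal_eq_sum_range_succ`), `Nat.choose_symm`; the term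
`i = 0` is 1, then split `Icc 1 (n/2)` at `k/2 <= n/2`. -/
def VA2_stmt : Prop := ∀ n k : ℕ, k ≤ n → n.choose (n / 2) = 1 + BV n k + tl n k

/-- NMA. Proof: `tl n k * 9^(k/2+1) <= sum_i C(n/2,i) C(n-n/2,i) 9^i`
`<= (sum_i C(n/2,i) 3^i) (sum_j C(n-n/2,j) 3^j) = 4^(n/2) 4^(n-n/2) = 4^n` (binomial theorem), so
`tl^4 * 3^(8 (k/2+1)) <= 256^n`, and `8 (k/2+1) >= 4k+4 >= 3n+4`. -/
def NMA_stmt : Prop := ∀ n k : ℕ, 3 * n ≤ 4 * k → tl n k ^ 4 * (27 ^ n * 81) ≤ 256 ^ n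

/-- NMB. Proof. `n = 2h+2` (`h >= 4`): `C(n,n/2) = 2 C(2h,h) + 2 C(2h,h+1)`,
`top4 (2h) = C(2h,h) + 2 C(2h,h+1) + C(2h,h+2)` (`C(2h,h-1) = C(2h,h+1)`), difference
`D = C(2h,h) - C(2h,h+2) = C(2h,h) (4h+2)/((h+1)(h+2))`, since
`C(2h,h+2) = C(2h,h) h(h-1)/((h+1)(h+2))`. `4^h <= h C(2h,h)` (`Nat.four_pow_lt_mul_centralBinom`, `4 <= h`),
so `D h (h+1)(h+2) >= 4^h (4h+2)`, and `n(n+2) = 4(h+1)(h+2)`: `n(n+2) D >= 4 * 4^h (4h+2)/h >= 2^(n+1)`
(`2^(n+1) = 8 * 4^h`). `n = 2h+3`: `C(n,n/2) = C(2h+3,h+1) = 3 C(2h+1,h) + C(2h+1,h-1)`,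
`top4 (2h+1) = 2 C(2h+1,h) + 2 C(2h+1,h-1)`, `D = C(2h+1,h) - C(2h+1,h-1) = C(2h+1,h) * 2/(h+2)`,
`2 C(2h+1,h) = C(2h+2,h+1) >= 4^(h+1)/(h+1)`, so `D (h+1)(h+2) >= 4^(h+1)`;
`n(n+2) = (2h+3)(2h+5) >= 4 (h+1)(h+2)`, `2^(n+1) = 4 * 4^(h+1)`. -/
def NMB_stmt : Prop := ∀ n : ℕ, 10 ≤ n →
  n * (n + 2) * top4 (n - 2) + 2 ^ (n + 1) ≤ n * (n + 2) * n.choose (n / 2)

/-- NMC. Induction on `n >= 48`: the left side grows by the factor `256 ((n+1)(n+3)/(n(n+2)))^4`
`<= 256 * 1.18`, the right side by `16 * 27 = 432`; the case `n = 48` by computation (`norm_num`). -/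
def NMC_stmt : Prop := ∀ n : ℕ, 48 ≤ n →
  (n * (n + 2)) ^ 4 * 256 ^ n ≤ (2 ^ (n + 1)) ^ 4 * (27 ^ n * 81)

/-- NMF. A finite computation (checked by computer). Only the least `k`, that is `k = (3n+3)/4`, matters, because
`tl n k` decreases in `k`. Do not unfold `Nat.choose` by Pascal's rule: write
`Nat.choose_eq_descFactorial_div_factorial` and use `decide +kernel` or `norm_num`, or define your own fast
binomials and prove them equal. -/
def NMF_stmt : Prop := ∀ n k : ℕ, 2 ≤ n → n < 48 → 3 * n ≤ 4 * k → k ≤ n →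
  top4 (n - 2) + tl n k ≤ n.choose (n / 2)

/-- NUM. From VA2 it suffices that `top4 (n-2) + tl n k <= C(n,n/2)`. `n < 48`: NMF. `n >= 48`: by NMA and NMC
`(n(n+2) tl)^4 (27^n 81) <= (n(n+2))^4 256^n <= (2^(n+1))^4 (27^n 81)`, so `n(n+2) tl <= 2^(n+1)`, and NMB. -/
def NUM_stmt : Prop := ∀ n k : ℕ, 2 ≤ n → 3 * n ≤ 4 * k → k ≤ n → top4 (n - 2) ≤ BV n k + 1

/-- LBD. The lower bound. `P = {i | i < n/2}`, `x = 1` on `P` and `-1` outside. `G` = the sets `A` with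
`|A cap P| = |A \ P| = i`, `1 <= i <= k/2`; `|G| = BV n k` (disjoint union over `i` of images of
`powersetCard i P ×ˢ powersetCard i Pᶜ`). `S` = indicator vectors. Unit-free: the span lies in the kernel of
`v |-> sum x j v j`, and `x i ≠ 0`. (Copy the first half of the proof of `uniform_result` in
Pool/Agent/helper55/NK/Base.lean.) -/
def LBD_stmt : Prop := ∀ n k : ℕ, k ≤ n → ∃ S : Finset (Fin n → ℝ),
  (∀ v ∈ S, (∀ i, v i = 0 ∨ v i = 1) ∧ v ≠ 0 ∧ (univ.filter (fun i => v i = 1)).card ≤ k) ∧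
  (∀ i : Fin n, (Pi.single i 1 : Fin n → ℝ) ∉ Submodule.span ℝ (S : Set (Fin n → ℝ))) ∧
  S.card = BV n k

/-- UPB. The upper bound. Proof: `Pool.Agent.NK.Base.exists_weights` (helper55/NK/Base.lean) gives `x` with all
`x i ≠ 0`; `F` = the supports of the members of `S` (as in the second half of the proof of `uniform_result`
there), `|F| = |S|`, all members nonempty, of size `<= k`, with zero sum. If all `|x i|` are equal: EQM. Otherwise
`|x u| ≠ |x v|`, so `n >= 2`; FLP for `insert ∅ F` gives `|F| + 1 <= top4 (n-2)`, and NUM. -/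
def UPB_stmt : Prop := ∀ n k : ℕ, 3 * n ≤ 4 * k → k ≤ n → ∀ S : Finset (Fin n → ℝ),
  (∀ v ∈ S, (∀ i, v i = 0 ∨ v i = 1) ∧ v ≠ 0 ∧ (univ.filter (fun i => v i = 1)).card ≤ k) →
  (∀ i : Fin n, (Pi.single i 1 : Fin n → ℝ) ∉ Submodule.span ℝ (S : Set (Fin n → ℝ))) →
  S.card ≤ BV n k

/-- FIN. The theorem. -/
def FIN_stmt : Prop := ∀ n k : ℕ, 1 ≤ k → k ≤ n → 3 * n ≤ 4 * k →
    IsGreatest
      {m : ℕ | ∃ S : Finset (Fin n → ℝ),
        (∀ v ∈ S, (∀ i, v i = 0 ∨ v i = 1) ∧ v ≠ 0 ∧ (univ.filter (fun i => v i = 1)).card ≤ k) ∧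
        (∀ i : Fin n,
          (Pi.single i 1 : Fin n → ℝ) ∉ Submodule.span ℝ (S : Set (Fin n → ℝ))) ∧
        S.card = m}
      (∑ i ∈ Icc 1 (k / 2), (n / 2).choose i * (n - n / 2).choose i)

end Pool.Agent.NL
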